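import Pool.Agent.Q120.RC.Stm

/-!
# Project RC (helper120), job RC-ASY (helper223)
-/

set_option autoImplicit false
set_option linter.all false

namespace Pool.Agent.Q223.RC

open Finset Filter Pool.Agent.Q120.RC
open scoped Topology

/-- the mean value theorem -/
theorem mvt {κ c : ℝ} (hκ : 0 < κ) (hc : 0 < c) (i : ℕ) (hi : 2 ≤ i) :
    (κ + 1) / c * (Real.log i ^ κ / (i + 1)) ≤ b0 κ c (i + 1) - b0 κ c i ∧
    b0 κ c (i + 1) - b0 κ c i ≤ (κ + 1) / c * (Real.log (i + 1) ^ κ / i) := by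
  have hi' : (2 : ℝ) ≤ i := by exact_mod_cast hi
  have hl : ∀ t : ℝ, 2 ≤ t → 0 < Real.log t := fun t ht => Real.log_pos (by linarith)
  have hd : ∀ t : ℝ, 2 ≤ t → HasDerivAt (fun t => Real.log t ^ (κ + 1) / c)
      ((κ + 1) / c * (Real.log t ^ κ / t)) t := by
    intro t ht
    have h1 := ((Real.hasDerivAt_log (by linarith : t ≠ 0)).rpow_const (p := κ + 1)
      (Or.inl (hl t ht).ne')).div_const c
    refine h1.congr_deriv ?_
    rw [add_sub_cancel_right]
    field_simp
  obtain ⟨ξ, ⟨h1, h2⟩, h3⟩ := exists_hasDerivAt_eq_slope (fun t => Real.log t ^ (κ + 1) / c)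
    (fun t => (κ + 1) / c * (Real.log t ^ κ / t)) (show (i : ℝ) < i + 1 by linarith)
    (fun t ht => (hd t (by linarith [ht.1])).continuousAt.continuousWithinAt)
    (fun t ht => hd t (by linarith [ht.1]))
  have h4 : b0 κ c (i + 1) - b0 κ c i = (κ + 1) / c * (Real.log ξ ^ κ / ξ) := by
    beta_reduce at h3
    rw [h3]
    unfold b0
    push_cast
    rw [add_sub_cancel_left, div_one]
  have hk : 0 < (κ + 1) / c := by positivity
  have hl1 := hl i hi'
  have hl2 := hl ξ (by linarith)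
  rw [h4]
  constructor
  · refine mul_le_mul_of_nonneg_left ?_ hk.le
    refine div_le_div₀ (Real.rpow_nonneg hl2.le _) ?_ (by linarith) h2.le
    exact Real.rpow_le_rpow hl1.le (Real.log_le_log (by linarith) h1.le) hκ.le
  · refine mul_le_mul_of_nonneg_left ?_ hk.le
    refine div_le_div₀ (Real.rpow_nonneg (hl _ (by linarith)).le _) ?_ (by linarith) h1.le
    exact Real.rpow_le_rpow hl2.le (Real.log_le_log (by linarith) h2.le) hκ.le

theorem log_ratio : Tendsto (fun i : ℕ => Real.log i / Real.log (i + 1)) atTop (𝓝 1) := by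
  have h1 := Real.tendsto_log_nat_add_one_sub_log
  have h2 : Tendsto (fun i : ℕ => Real.log ((i : ℝ) + 1)) atTop atTop :=
    Real.tendsto_log_atTop.comp (tendsto_atTop_add_const_right _ _ tendsto_natCast_atTop_atTop)
  have h3 := (h1.div_atTop h2).const_sub 1
  rw [sub_zero] at h3
  refine h3.congr' ?_
  filter_upwards [eventually_ge_atTop 1] with i hi
  have h4 : 0 < Real.log ((i : ℝ) + 1) := by
    refine Real.log_pos ?_
    have : (1 : ℝ) ≤ i := by exact_mod_cast hi
    linarith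
  field_simp
  ring

/-- the terms -/
theorem term_lim {κ c : ℝ} {p : ℕ → ℝ} (hκ : 0 < κ) (hc : 0 < c) (hM : Mod κ c p) :
    Tendsto (fun i : ℕ => p (i + 1) * (b0 κ c (i + 1) - b0 κ c i) * ((i : ℝ) + 1)) atTop
      (𝓝 (κ + 1)) := by
  have h1 : Tendsto (fun i : ℕ => p (i + 1) * Real.log ((i : ℝ) + 1) ^ κ) atTop (𝓝 c) := by
    have := hM.lim.comp (tendsto_add_atTop_nat 1)
    refine this.congr fun i => ?_
    show p (i + 1) * Real.log ((i + 1 : ℕ) : ℝ) ^ κ = _
    push_cast
    rfl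
  have hlo : Tendsto (fun i : ℕ => (κ + 1) / c * (p (i + 1) * Real.log ((i : ℝ) + 1) ^ κ *
      (Real.log i / Real.log (i + 1)) ^ κ)) atTop (𝓝 (κ + 1)) := by
    have h2 := (log_ratio.rpow_const (p := κ) (Or.inl one_ne_zero))
    have h3 := (h1.mul h2).const_mul ((κ + 1) / c)
    rw [Real.one_rpow, mul_one, div_mul_cancel₀ _ hc.ne'] at h3
    exact h3
  have hup : Tendsto (fun i : ℕ => (κ + 1) / c * (p (i + 1) * Real.log ((i : ℝ) + 1) ^ κ *
      (1 + 1 / (i : ℝ)))) atTop (𝓝 (κ + 1)) := by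
    have h2 : Tendsto (fun i : ℕ => 1 + 1 / (i : ℝ)) atTop (𝓝 (1 + 0)) :=
      tendsto_one_div_atTop_nhds_zero_nat.const_add 1
    have h3 := (h1.mul h2).const_mul ((κ + 1) / c)
    rw [add_zero, mul_one, div_mul_cancel₀ _ hc.ne'] at h3
    exact h3
  refine tendsto_of_tendsto_of_tendsto_of_le_of_le' hlo hup ?_ ?_
  · filter_upwards [eventually_ge_atTop 2] with i hi
    have hi' : (2 : ℝ) ≤ i := by exact_mod_cast hi
    have h2 := (mvt hκ hc i hi).1
    have hl1 : 0 < Real.log (i : ℝ) := Real.log_pos (by linarith)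
    have hl2 : 0 < Real.log ((i : ℝ) + 1) := Real.log_pos (by linarith)
    have hp := hM.pos (i + 1)
    rw [Real.div_rpow hl1.le hl2.le]
    have hl3 : Real.log ((i : ℝ) + 1) ^ κ ≠ 0 := (Real.rpow_pos_of_pos hl2 κ).ne'
    calc (κ + 1) / c * (p (i + 1) * Real.log ((i : ℝ) + 1) ^ κ *
          (Real.log i ^ κ / Real.log (i + 1) ^ κ)) =
          p (i + 1) * ((κ + 1) / c * (Real.log i ^ κ / (i + 1))) * ((i : ℝ) + 1) := by
          field_simp
      _ ≤ _ := mul_le_mul_of_nonneg_right (mul_le_mul_of_nonneg_left h2 hp.le) (by linarith)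
  · filter_upwards [eventually_ge_atTop 2] with i hi
    have hi' : (2 : ℝ) ≤ i := by exact_mod_cast hi
    have h2 := (mvt hκ hc i hi).2
    have hp := hM.pos (i + 1)
    calc _ ≤ p (i + 1) * ((κ + 1) / c * (Real.log (i + 1) ^ κ / i)) * ((i : ℝ) + 1) :=
          mul_le_mul_of_nonneg_right (mul_le_mul_of_nonneg_left h2 hp.le) (by linarith)
      _ = _ := by
        have : (i : ℝ) ≠ 0 := by linarith
        field_simp

/-- the harmonic sum -/
theorem harm : Tendsto (fun x : ℕ => (∑ i ∈ range x, 1 / ((i : ℝ) + 1)) / Real.log (x + 1)) atTop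
    (𝓝 1) := by
  have h1 := Real.tendsto_eulerMascheroniSeq
  have h2 : Tendsto (fun i : ℕ => Real.log ((i : ℝ) + 1)) atTop atTop :=
    Real.tendsto_log_atTop.comp (tendsto_atTop_add_const_right _ _ tendsto_natCast_atTop_atTop)
  have h3 := (h1.div_atTop h2).add_const 1
  rw [zero_add] at h3
  refine h3.congr' ?_
  filter_upwards [eventually_ge_atTop 1] with x hx
  have h4 : 0 < Real.log ((x : ℝ) + 1) := by
    refine Real.log_pos ?_
    have : (1 : ℝ) ≤ x := by exact_mod_cast hx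
    linarith
  have h5 : ((harmonic x : ℚ) : ℝ) = ∑ i ∈ range x, 1 / ((i : ℝ) + 1) := by
    unfold harmonic
    push_cast
    refine sum_congr rfl fun i _ => ?_
    rw [one_div]
  unfold Real.eulerMascheroniSeq
  rw [h5]
  field_simp
  ring

/-- **Job ASY** -/
theorem t_ASY : J_ASY := by
  intro κ c p hκ hc hM
  have h1 := term_lim hκ hc hM
  set a : ℕ → ℝ := fun i => p (i + 1) * (b0 κ c (i + 1) - b0 κ c i) with ha
  have h2 : (fun i : ℕ => a i - (κ + 1) * (1 / ((i : ℝ) + 1))) =o[atTop]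
      fun i : ℕ => 1 / ((i : ℝ) + 1) := by
    rw [Asymptotics.isLittleO_iff_tendsto fun i hi => by
      have : (1 : ℝ) / ((i : ℝ) + 1) ≠ 0 := by positivity
      exact absurd hi this]
    have h3 := h1.sub_const (κ + 1)
    rw [sub_self] at h3
    refine h3.congr fun i => ?_
    have : (i : ℝ) + 1 ≠ 0 := by positivity
    field_simp
    rw [ha]
    ring
  have h4 : Tendsto (fun x : ℕ => ∑ i ∈ range x, 1 / ((i : ℝ) + 1)) atTop atTop :=
    Real.tendsto_sum_range_one_div_nat_succ_atTop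
  have h5 := h2.sum_range (fun i => by positivity) h4
  have h6 := harm
  -- divide by the logarithm
  have h7 : Tendsto (fun x : ℕ => (∑ i ∈ range x, a i) / Real.log (x + 1)) atTop
      (𝓝 (κ + 1)) := by
    have h8 : Tendsto (fun x : ℕ => (∑ i ∈ range x, (a i - (κ + 1) * (1 / ((i : ℝ) + 1)))) /
        (∑ i ∈ range x, 1 / ((i : ℝ) + 1))) atTop (𝓝 0) := h5.tendsto_div_nhds_zero
    have h9 := ((h8.add_const (κ + 1)).mul h6)
    rw [zero_add, mul_one] at h9
    refine h9.congr' ?_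
    filter_upwards [eventually_ge_atTop 1] with x hx
    have h10 : (∑ i ∈ range x, 1 / ((i : ℝ) + 1)) ≠ 0 := by
      refine (sum_pos (fun i _ => by positivity) ?_).ne'
      exact ⟨0, mem_range.2 hx⟩
    rw [sum_sub_distrib, ← mul_sum]
    field_simp
    ring
  rw [← tendsto_add_atTop_iff_nat 1]
  refine h7.congr fun x => ?_
  congr 1
  · rw [sum_Ico_eq_sum_range, Nat.add_sub_cancel]
    refine sum_congr rfl fun i _ => ?_
    rw [ha, add_comm 1 i, Nat.add_sub_cancel]
  · push_cast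
    rfl

end Pool.Agent.Q223.RC
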